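import Pool.Agent.Work.MP_6f75b7_lc.DfPred
import Pool.Agent.Work.MP_6f75b7_lc.TransCert
import Pool.Agent.Work.MP_6f75b7_lc.Params

namespace Pool.Agent.Results.MP_6f75b7_lc.NotHanfLocal

open Pool.Agent.Work.MP_6f75b7_lc

/-- There is a first-order sentence over coloured graphs with a linear order that is
order-invariant on all finite coloured graphs and whose graph property is not Hanf-local for
any radius `d`; the witnessing graphs can be taken simple. -/
theorem result :
    ∃ (c : ℕ) (φ : ((graphLang c).sum FirstOrder.Language.order).Sentence),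
      OrderInvariant φ ∧
      ∀ d : ℕ, ∃ G H : CGraph c, IsSimple G ∧ IsSimple H ∧ HanfEquiv d G H ∧
        Sat φ G ∧ ¬ Sat φ H := by
  obtain ⟨φ, hφ⟩ := exists_sentence
  refine ⟨8, φ, fun G o₁ o₂ => by rw [hφ, hφ]; exact invariant G o₁ o₂, fun d => ?_⟩
  obtain ⟨P, hP⟩ := exists_par d
  refine ⟨Model P true, Model P false, model_simple P true, model_simple P false, hanf P d hP,
    ?_, ?_⟩
  · have := (Model P true).fin
    obtain ⟨n, ⟨e⟩⟩ := Finite.exists_equiv_fin (Model P true).V
    refine ⟨LinearOrder.lift' e e.injective, ?_⟩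
    rw [hφ, (mcoord P true).main (o := LinearOrder.lift' e e.injective)]
    exact ⟨⟨d_AK, d_trOK⟩, AP_true⟩
  · rintro ⟨o, ho⟩
    rw [hφ, (mcoord P false).main (o := o)] at ho
    exact not_AP_false ho.2

end Pool.Agent.Results.MP_6f75b7_lc.NotHanfLocal
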